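import Pool.Agent.V8H87.DQ.Lin

/-!
# The group ring of a finite group and characters
-/

set_option autoImplicit false
set_option linter.unusedSectionVars false

open Module Finset

namespace Pool.Agent.V8H87.DQ

section

variable {K : Type*} [Field K] {G : Type*} [Group G] [Fintype G]

/-- The group ring in characteristic zero is von Neumann regular. -/
lemma regular [CharZero K] (y : MonoidAlgebra K G) : ∃ w, y * w * y = y := by
  have : NeZero (Nat.card G : K) := ⟨by
    rw [Nat.cast_ne_zero]
    exact Nat.card_pos.ne'⟩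
  let L : Submodule (MonoidAlgebra K G) (MonoidAlgebra K G) := Submodule.span _ {y}
  obtain ⟨L', hL⟩ := MonoidAlgebra.Submodule.exists_isCompl L
  have h1 : (1 : MonoidAlgebra K G) ∈ L ⊔ L' := by
    rw [hL.sup_eq_top]
    exact Submodule.mem_top
  obtain ⟨e, he, e', he', hee⟩ := Submodule.mem_sup.1 h1
  obtain ⟨w, hw⟩ := Submodule.mem_span_singleton.1 he
  refine ⟨w, ?_⟩
  have h2 : y * e' = y - y * e := by
    rw [eq_sub_iff_add_eq', ← mul_add, hee, mul_one]
  have h3 : y * e' ∈ L := by
    rw [h2]
    exact L.sub_mem (Submodule.mem_span_singleton_self y) (L.smul_mem y he)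
  have h4 : y * e' = 0 := by
    have h5 : y * e' ∈ L ⊓ L' := ⟨h3, L'.smul_mem y he'⟩
    rwa [hL.inf_eq_bot, Submodule.mem_bot] at h5
  rw [h2, sub_eq_zero] at h4
  rw [mul_assoc]
  rw [smul_eq_mul] at hw
  rw [hw]
  exact h4.symm

variable {A : Type*} [Ring A] [Algebra K A] (φ : G →* A)

/-- The action of an element of the group ring. -/
noncomputable def ev (x : MonoidAlgebra K G) : A := ∑ g, x.coeff g • φ g

/-- The action of an element of the group ring through the inverse of the group. -/
noncomputable def hat (x : MonoidAlgebra K G) : A := ∑ g, x.coeff g • φ g⁻¹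

lemma coeff_mul' (x y : MonoidAlgebra K G) (h : G) :
    (x * y).coeff h = ∑ g, x.coeff g * y.coeff (g⁻¹ * h) := by
  rw [MonoidAlgebra.coeff_mul_apply_left, Finsupp.sum_fintype]
  intro i
  rw [zero_mul]

lemma ev_mul (x y : MonoidAlgebra K G) : ev φ (x * y) = ev φ x * ev φ y := by
  unfold ev
  have h1 : ∀ h, (x * y).coeff h • φ h = ∑ g, (x.coeff g * y.coeff (g⁻¹ * h)) • φ h := by
    intro h
    rw [coeff_mul', sum_smul]
  rw [sum_congr rfl (fun h _ => h1 h), sum_comm, sum_mul]
  refine sum_congr rfl (fun g _ => ?_)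
  rw [mul_sum]
  rw [← Equiv.sum_comp (Equiv.mulLeft g)]
  refine sum_congr rfl (fun h _ => ?_)
  rw [Equiv.coe_mulLeft, inv_mul_cancel_left, map_mul, smul_mul_smul_comm]

lemma hat_mul (x y : MonoidAlgebra K G) : hat φ (x * y) = hat φ y * hat φ x := by
  unfold hat
  have h1 : ∀ h, (x * y).coeff h • φ h⁻¹ = ∑ g, (x.coeff g * y.coeff (g⁻¹ * h)) • φ h⁻¹ := by
    intro h
    rw [coeff_mul', sum_smul]
  rw [sum_congr rfl (fun h _ => h1 h), sum_comm, mul_sum]
  refine sum_congr rfl (fun g _ => ?_)
  rw [sum_mul]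
  rw [← Equiv.sum_comp (Equiv.mulLeft g)]
  refine sum_congr rfl (fun h _ => ?_)
  rw [Equiv.coe_mulLeft, inv_mul_cancel_left, mul_inv_rev, map_mul, smul_mul_smul_comm,
    mul_comm (x.coeff g)]

lemma ev_one : ev φ (1 : MonoidAlgebra K G) = 1 := by
  classical
  unfold ev
  rw [sum_eq_single 1]
  · rw [MonoidAlgebra.one_def, MonoidAlgebra.coeff_single, Finsupp.single_eq_same, one_smul,
      map_one]
  · intro g _ hg
    rw [MonoidAlgebra.one_def, MonoidAlgebra.coeff_single, Finsupp.single_eq_of_ne hg, zero_smul]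
  · intro h
    exact absurd (mem_univ _) h

lemma hat_one : hat φ (1 : MonoidAlgebra K G) = 1 := by
  classical
  unfold hat
  rw [sum_eq_single 1]
  · rw [MonoidAlgebra.one_def, MonoidAlgebra.coeff_single, Finsupp.single_eq_same, one_smul,
      inv_one, map_one]
  · intro g _ hg
    rw [MonoidAlgebra.one_def, MonoidAlgebra.coeff_single, Finsupp.single_eq_of_ne hg, zero_smul]
  · intro h
    exact absurd (mem_univ _) h

lemma ev_sub (x y : MonoidAlgebra K G) : ev φ (x - y) = ev φ x - ev φ y := by
  unfold ev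
  rw [← sum_sub_distrib]
  refine sum_congr rfl (fun g _ => ?_)
  rw [MonoidAlgebra.coeff_sub, Finsupp.sub_apply, sub_smul]

/-- The element of the group ring with given coefficients. -/
noncomputable def mk (f : G → K) : MonoidAlgebra K G := ∑ g, MonoidAlgebra.single g (f g)

@[simp] lemma coeff_mk (f : G → K) (g : G) : (mk f).coeff g = f g := by
  classical
  unfold mk
  rw [MonoidAlgebra.coeff_sum, Finsupp.finsetSum_apply, sum_eq_single g]
  · rw [MonoidAlgebra.coeff_single, Finsupp.single_eq_same]
  · intro h _ hh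
    rw [MonoidAlgebra.coeff_single, Finsupp.single_eq_of_ne (Ne.symm hh)]
  · intro h
    exact absurd (mem_univ _) h

lemma ext_coeff {x y : MonoidAlgebra K G} (h : ∀ g, x.coeff g = y.coeff g) : x = y := by
  ext g
  exact h g

end

section

variable {K : Type*} [Field K] [CharZero K] {G : Type*} [Group G] [Fintype G]
  {V : Type*} [AddCommGroup V] [Module K V] [Module.Finite K V] (φ : G →* Module.End K V)

/-- the character twisted by an operator `b` -/
noncomputable def chr (b : Module.End K V) : MonoidAlgebra K G :=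
  mk fun g => LinearMap.trace K V (φ g * b)

lemma chr_mul (b : Module.End K V) (y : MonoidAlgebra K G) (h : G) :
    (chr φ b * y).coeff h = LinearMap.trace K V (φ h * hat φ y * b) := by
  rw [coeff_mul']
  unfold hat
  rw [mul_sum, sum_mul, map_sum]
  rw [← Equiv.sum_comp ((Equiv.inv G).trans (Equiv.mulLeft h))]
  refine sum_congr rfl (fun g _ => ?_)
  simp only [chr, coeff_mk, Equiv.trans_apply, Equiv.inv_apply, Equiv.coe_mulLeft]
  rw [mul_smul_comm, smul_mul_assoc, map_smul, smul_eq_mul, mul_inv_rev, inv_inv,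
    inv_mul_cancel_right, MonoidHom.map_mul φ, mul_comm]

lemma mul_chr (b : Module.End K V) (hb : ∀ g, φ g * b = b * φ g) (y : MonoidAlgebra K G) (h : G) :
    (y * chr φ b).coeff h = LinearMap.trace K V (φ h * hat φ y * b) := by
  have h1 : LinearMap.trace K V (φ h * hat φ y * b) = LinearMap.trace K V (hat φ y * (φ h * b)) := by
    have h2 : hat φ y * b = b * hat φ y := by
      unfold hat
      rw [sum_mul, mul_sum]
      refine sum_congr rfl (fun g _ => ?_)
      rw [smul_mul_assoc, mul_smul_comm, hb]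
    rw [mul_assoc, h2, ← mul_assoc, LinearMap.trace_mul_comm]
  rw [h1, coeff_mul']
  unfold hat
  rw [sum_mul, map_sum]
  refine sum_congr rfl (fun g _ => ?_)
  simp only [chr, coeff_mk]
  rw [smul_mul_assoc, map_smul, smul_eq_mul, MonoidHom.map_mul φ, mul_assoc]

lemma chr_comm (b : Module.End K V) (hb : ∀ g, φ g * b = b * φ g) (y : MonoidAlgebra K G) :
    chr φ b * y = y * chr φ b :=
  ext_coeff (fun g => by rw [chr_mul, mul_chr φ b hb])

lemma chr_mul_zero (b : Module.End K V) {y : MonoidAlgebra K G} (hy : hat φ y = 0) :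
    chr φ b * y = 0 :=
  ext_coeff (fun g => by
    rw [chr_mul, hy, mul_zero, zero_mul, map_zero]
    rfl)

/-- The character detects the representation. -/
lemma hat_zero {y : MonoidAlgebra K G} (hy : chr φ 1 * y = 0) : hat φ y = 0 := by
  obtain ⟨w, hw⟩ := regular y
  have h1 : ∀ h, LinearMap.trace K V (φ h * hat φ y) = 0 := by
    intro h
    have h2 := congrArg (fun a => MonoidAlgebra.coeff a h) hy
    simp only [chr_mul, mul_one] at h2
    exact h2
  have h3 : LinearMap.trace K V (hat φ w * hat φ y) = 0 := by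
    unfold hat at h1 ⊢
    rw [sum_mul, map_sum]
    refine sum_eq_zero (fun g _ => ?_)
    rw [smul_mul_assoc, map_smul, h1, smul_zero]
  have h4 : hat φ y * (hat φ w * hat φ y) = hat φ y := by
    rw [← hat_mul, ← hat_mul, hw]
  have h5 : IsIdempotentElem (hat φ w * hat φ y) := by
    unfold IsIdempotentElem
    rw [mul_assoc, h4]
  have h6 : hat φ w * hat φ y = 0 :=
    LinearMap.IsIdempotentElem.eq_zero_of_trace_eq_zero h5 h3
  rw [← h4, h6, mul_zero]

/-- The part of the group ring seen by a representation has a unit. -/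
lemma exists_unit : ∃ ε : MonoidAlgebra K G, hat φ (1 - ε) = 0 ∧ ∀ y, hat φ y = 0 → ε * y = 0 := by
  let t : MonoidAlgebra K G := chr φ 1
  obtain ⟨z, hz⟩ := regular t
  refine ⟨z * t, hat_zero φ ?_, fun y hy => ?_⟩
  · change t * (1 - z * t) = 0
    rw [mul_sub, mul_one, ← mul_assoc, hz, sub_self]
  · rw [mul_assoc]
    change z * (chr φ 1 * y) = 0
    rw [chr_mul_zero φ 1 hy, mul_zero]

/-- **The key fact on characters.** -/
theorem key (pr : ℕ → Module.End K V) (d : ℕ) (hpr : ∑ j ∈ range (d + 1), pr j = 1)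
    (hc : ∀ j g, φ g * pr j = pr j * φ g) :
    ∃ F : Finset K, ∀ s, s ∉ F → ∃ v : MonoidAlgebra K G, ∀ x : MonoidAlgebra K G,
      (∀ y, hat φ y = 0 → x * y = 0) →
        x * v * (∑ j ∈ range (d + 1), s ^ j • chr φ (pr j)) = x := by
  classical
  let t : MonoidAlgebra K G := chr φ 1
  have ht : ∀ y, t * y = y * t := chr_comm φ 1 (fun g => by rw [mul_one, one_mul])
  obtain ⟨z, hz⟩ := regular t
  let ε : MonoidAlgebra K G := z * t
  have htε : t * ε = t := by
    change t * (z * t) = t
    rw [← mul_assoc, hz]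
  have hεε : ε * ε = ε := by
    change z * t * ε = ε
    rw [mul_assoc, htε]
  have hy : hat φ (1 - ε) = 0 := hat_zero φ (by
    change t * (1 - ε) = 0
    rw [mul_sub, mul_one, htε, sub_self])
  -- the family
  have hsum : ∑ j ∈ range (d + 1), (1 : K) ^ j • chr φ (pr j) = t := by
    refine ext_coeff (fun g => ?_)
    simp only [one_pow, one_smul, MonoidAlgebra.coeff_sum, Finsupp.finsetSum_apply, chr, coeff_mk,
      t]
    rw [← map_sum, ← mul_sum, hpr]
  let Z : ℕ → Module.End K (MonoidAlgebra K G) := fun j =>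
    LinearMap.mulLeft K (chr φ (pr j)) + if j = 0 then LinearMap.mulLeft K (1 - ε) else 0
  have hZ : ∀ s : K, ∑ j ∈ range (d + 1), s ^ j • Z j =
      LinearMap.mulLeft K ((∑ j ∈ range (d + 1), s ^ j • chr φ (pr j)) + (1 - ε)) := by
    intro s
    have h1 : ∑ j ∈ range (d + 1), s ^ j • (if j = 0 then LinearMap.mulLeft K (1 - ε) else 0 :
        Module.End K (MonoidAlgebra K G)) = LinearMap.mulLeft K (1 - ε) := by
      rw [sum_eq_single 0]
      · rw [if_pos rfl, pow_zero, one_smul]
      · intro j _ hj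
        rw [if_neg hj, smul_zero]
      · intro h
        exact absurd (mem_range.2 (Nat.succ_pos d)) h
    simp only [Z, smul_add, sum_add_distrib]
    rw [h1]
    refine LinearMap.ext (fun a => ?_)
    simp only [LinearMap.add_apply, LinearMap.sum_apply,
      LinearMap.smul_apply, LinearMap.mulLeft_apply, add_mul, sum_mul, smul_mul_assoc]
  have h0 : Function.Injective (∑ j ∈ range (d + 1), (1 : K) ^ j • Z j :
      Module.End K (MonoidAlgebra K G)) := by
    rw [hZ, hsum, injective_iff_map_eq_zero]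
    intro a ha
    rw [LinearMap.mulLeft_apply] at ha
    -- t * a = 0
    have h1 : t * a = 0 := by
      have h2 := congrArg (fun b => z * t * b) ha
      simp only [mul_zero] at h2
      have h3 : z * t * ((t + (1 - ε)) * a) = t * a := by
        have h4 : z * t * t = t := by rw [← ht z, hz]
        have h5 : z * t * (1 - ε) = 0 := by
          rw [mul_sub, mul_one]
          change ε - ε * ε = 0
          rw [hεε, sub_self]
        rw [← mul_assoc, mul_add, h4, h5, add_zero]
      rw [h3] at h2
      exact h2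
    have h2 : ε * a = 0 := by
      change z * t * a = 0
      rw [mul_assoc, h1, mul_zero]
    rw [add_mul, h1, zero_add, sub_mul, one_mul, h2, sub_zero] at ha
    exact ha
  obtain ⟨F, hF⟩ := finite_bad Z d 1 h0
  refine ⟨F, fun s hs => ?_⟩
  have h1 := hF s hs
  rw [hZ] at h1
  obtain ⟨v, hv⟩ := (LinearMap.surjective_of_injective h1) 1
  rw [LinearMap.mulLeft_apply] at hv
  refine ⟨v, fun x hx => ?_⟩
  -- t_s is central
  have hts : ∀ y, (∑ j ∈ range (d + 1), s ^ j • chr φ (pr j)) * y =
      y * (∑ j ∈ range (d + 1), s ^ j • chr φ (pr j)) := by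
    intro y
    rw [sum_mul, mul_sum]
    refine sum_congr rfl (fun j _ => ?_)
    rw [smul_mul_assoc, mul_smul_comm, chr_comm φ (pr j) (hc j)]
  have hts0 : (∑ j ∈ range (d + 1), s ^ j • chr φ (pr j)) * (1 - ε) = 0 := by
    rw [sum_mul]
    refine sum_eq_zero (fun j _ => ?_)
    rw [smul_mul_assoc, chr_mul_zero φ (pr j) hy, smul_zero]
  have hxε : x * (1 - ε) = 0 := hx _ hy
  have h2 : x * ((∑ j ∈ range (d + 1), s ^ j • chr φ (pr j)) + (1 - ε)) * v = x := by
    rw [mul_assoc, hv, mul_one]
  rw [mul_add, hxε, add_zero, mul_assoc, hts, ← mul_assoc] at h2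
  exact h2

end

end Pool.Agent.V8H87.DQ
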