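import Pool.Agent.V8H87.DQ.Lin
import Pool.Agent.Y112.SR.Main

/-!
# The Künneth components of a tensor product and partial traces
-/

set_option autoImplicit false
set_option linter.unusedSectionVars false

open CategoryTheory Limits MonoidalCategory Module Finset
open Pool.Agent.Y112.SR

namespace Pool.Agent.V8H87.DQ

universe v u w

open Functor.LaxMonoidal Functor.OplaxMonoidal

section

variable {C : Type u} [Category.{v} C] [Preadditive C] [MonoidalCategory C] [SymmetricCategory C]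
  {K : Type w} [Field K]

/-- A grading of the realisation `R` by the integers, for instance the one of a Weil cohomology
`H^* = ⊕ H^i` (where `H^i` of the dual of `X` is dual to `H^{-i}(X)` and the Lefschetz motive lies in
degree two): natural orthogonal projectors `gr X i` of `R(X)` with sum one (and only finitely many of
them nonzero), such that `R(X)_i ⊗ R(Y)_j` is contained in `R(X ⊗ Y)_{i+j}` and the parity operator is
`(-1)^i` on the `i`-th part. -/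
structure Grading (R : SuperRealisation C K) where
  /-- the projector to the part of degree `i` -/
  gr (X : C) (i : ℤ) : R.H.obj X ⟶ R.H.obj X
  gr_idem (X : C) (i : ℤ) : gr X i ≫ gr X i = gr X i
  gr_orth (X : C) (i j : ℤ) (h : i ≠ j) : gr X i ≫ gr X j = 0
  gr_natural {X Y : C} (f : X ⟶ Y) (i : ℤ) : R.H.map f ≫ gr Y i = gr X i ≫ R.H.map f
  gr_sum (X : C) : ∃ d : ℕ, (∀ i : ℤ, (d : ℤ) < |i| → gr X i = 0) ∧
    ∑ i ∈ Icc (-(d : ℤ)) d, gr X i = 𝟙 _
  gr_tensor (X Y : C) (i j : ℤ) : ((gr X i ⊗ₘ gr Y j) ≫ μ R.H X Y) ≫ gr (X ⊗ Y) (i + j) =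
    (gr X i ⊗ₘ gr Y j) ≫ μ R.H X Y
  gr_par (X : C) (i : ℤ) : gr X i ≫ R.par X = (-1 : K) ^ i • gr X i

/-- The `K`-span of the realisations of the endomorphisms of `X`: the algebraic classes. -/
def alg (R : SuperRealisation C K) (X : C) : Submodule K (R.H.obj X ⟶ R.H.obj X) :=
  Submodule.span K (Set.range fun f : X ⟶ X => R.H.map f)

variable {R : SuperRealisation C K} (𝒢 : Grading R)

/-- The Künneth conjecture for the direct summand of `X` cut out by the idempotent `e` (and for `X`,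
if `e` is the identity): all products `π_k e` are algebraic. -/
def Kun {X : C} (e : X ⟶ X) : Prop := ∀ k : ℤ, 𝒢.gr X k ≫ R.H.map e ∈ alg R X

lemma map_mem {X : C} (f : X ⟶ X) : R.H.map f ∈ alg R X := Submodule.subset_span ⟨f, rfl⟩

lemma comp_mem {X : C} {a b : R.H.obj X ⟶ R.H.obj X} (ha : a ∈ alg R X) (hb : b ∈ alg R X) :
    a ≫ b ∈ alg R X := by
  refine Submodule.span_induction (p := fun a _ => a ≫ b ∈ alg R X) ?_ ?_ ?_ ?_ ha
  · rintro _ ⟨f, rfl⟩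
    refine Submodule.span_induction (p := fun b _ => R.H.map f ≫ b ∈ alg R X) ?_ ?_ ?_ ?_ hb
    · rintro _ ⟨g, rfl⟩
      rw [← R.H.map_comp]
      exact map_mem _
    · rw [comp_zero]
      exact Submodule.zero_mem _
    · intro x y _ _ hx hy
      rw [Preadditive.comp_add]
      exact Submodule.add_mem _ hx hy
    · intro c x _ hx
      rw [Linear.comp_smul]
      exact Submodule.smul_mem _ _ hx
  · rw [zero_comp]
    exact Submodule.zero_mem _
  · intro x y _ _ hx hy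
    rw [Preadditive.add_comp]
    exact Submodule.add_mem _ hx hy
  · intro c x _ hx
    rw [Linear.smul_comp]
    exact Submodule.smul_mem _ _ hx

/-- `Σ_l (Σ_{-d ≤ j ≤ d} s^j tr(b_l | H^j)) a_l`. -/
noncomputable def twist (M N : C) {ι : Type} [Fintype ι] (a : ι → (M ⟶ M)) (b : ι → (N ⟶ N))
    (d : ℕ) (s : K) : R.H.obj M ⟶ R.H.obj M :=
  ∑ l, (∑ j ∈ Icc (-(d : ℤ)) d, s ^ j * LinearMap.trace K _ (R.H.map (b l) ≫ 𝒢.gr N j).hom) •
    R.H.map (a l)

/-- The grading shifted to nonnegative degrees. -/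
noncomputable def sg (X : C) (d i : ℕ) : R.H.obj X ⟶ R.H.obj X := 𝒢.gr X ((i : ℤ) - d)

/-- the same sum as `twist`, with nonnegative exponents -/
noncomputable def twist' (M N : C) {ι : Type} [Fintype ι] (a : ι → (M ⟶ M)) (b : ι → (N ⟶ N))
    (d : ℕ) (s : K) : R.H.obj M ⟶ R.H.obj M :=
  ∑ l, (∑ j ∈ range (2 * d + 1), s ^ j * LinearMap.trace K _ (R.H.map (b l) ≫ sg 𝒢 N d j).hom) •
    R.H.map (a l)

lemma sum_shift {A : Type*} [AddCommMonoid A] (d : ℕ) (f : ℤ → A) :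
    ∑ i ∈ Icc (-(d : ℤ)) d, f i = ∑ i ∈ range (2 * d + 1), f ((i : ℤ) - d) := by
  symm
  refine sum_nbij (fun i : ℕ => (i : ℤ) - d) ?_ ?_ ?_ ?_
  · intro i hi
    rw [mem_range] at hi
    rw [mem_Icc]
    omega
  · intro i _ j _ h
    simp only at h
    omega
  · intro i hi
    rw [coe_Icc, Set.mem_Icc] at hi
    refine ⟨(i + d).toNat, ?_, ?_⟩
    · rw [coe_range, Set.mem_Iio]
      omega
    · simp only
      omega
  · intro i _
    rfl

lemma twist_eq (M N : C) {ι : Type} [Fintype ι] (a : ι → (M ⟶ M)) (b : ι → (N ⟶ N))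
    (d : ℕ) {s : K} (hs : s ≠ 0) : twist' 𝒢 M N a b d s = s ^ d • twist 𝒢 M N a b d s := by
  unfold twist twist'
  rw [smul_sum]
  refine sum_congr rfl (fun l _ => ?_)
  rw [sum_shift, smul_smul, mul_sum]
  congr 1
  refine sum_congr rfl (fun j _ => ?_)
  rw [← mul_assoc]
  congr 1
  rw [zpow_sub₀ hs, zpow_natCast, zpow_natCast, mul_div_cancel₀ _ (pow_ne_zero d hs)]

/-- the bound of a grading is monotone -/
lemma sg_zero {X : C} {d : ℕ} (hX : ∀ i : ℤ, (d : ℤ) < |i| → 𝒢.gr X i = 0) {i : ℕ}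
    (hi : 2 * d < i) : sg 𝒢 X d i = 0 := by
  refine hX _ ?_
  rw [lt_abs]
  left
  omega

lemma gr_out {X : C} {d : ℕ} (hX : ∀ i : ℤ, (d : ℤ) < |i| → 𝒢.gr X i = 0) {k : ℤ}
    (hk : ∀ i : ℕ, i < 2 * d + 1 → (i : ℤ) - d ≠ k) : 𝒢.gr X k = 0 := by
  refine hX _ ?_
  rw [lt_abs]
  by_contra hcon
  push Not at hcon
  exact hk (k + d).toNat (by omega) (by omega)

lemma sg_sum {X : C} {d : ℕ} (hX : ∀ i : ℤ, (d : ℤ) < |i| → 𝒢.gr X i = 0) :
    ∑ i ∈ range (2 * d + 1), sg 𝒢 X d i = 𝟙 _ := by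
  obtain ⟨d', h1, h2⟩ := 𝒢.gr_sum X
  unfold sg
  rw [← sum_shift d (fun i => 𝒢.gr X i), ← h2]
  have h3 : ∀ a b : ℕ, a ≤ b → (∀ i : ℤ, (a : ℤ) < |i| → 𝒢.gr X i = 0) →
      ∑ i ∈ Icc (-(a : ℤ)) a, 𝒢.gr X i = ∑ i ∈ Icc (-(b : ℤ)) b, 𝒢.gr X i := by
    intro a b hab ha
    refine sum_subset ?_ ?_
    · intro i hi
      rw [mem_Icc] at hi ⊢
      omega
    · intro i _ hi
      refine ha i ?_
      rw [mem_Icc, not_and_or] at hi
      rw [lt_abs]
      omega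
  rcases le_total d d' with h | h
  · exact h3 d d' h hX
  · exact (h3 d' d h h1).symm

end

section

variable {C : Type u} [Category.{v} C] [Preadditive C] [Linear ℚ C] [MonoidalCategory C]
  [MonoidalPreadditive C] [SymmetricCategory C] [RightRigidCategory C] {K : Type w} [Field K]
  {R : SuperRealisation C K} (𝒢 : Grading R)

lemma pt_smul {M N : C} (c : K) (x : R.H.obj M ⊗ R.H.obj N ⟶ R.H.obj M ⊗ R.H.obj N) :
    pt R (c • x) = c • pt R x := by
  simp [pt, MonoidalLinear.smul_whiskerRight]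

/-- The partial trace over the second factor on the realisation. -/
noncomputable def ptK (R : SuperRealisation C K) (M N : C) :
    (R.H.obj (M ⊗ N) ⟶ R.H.obj (M ⊗ N)) →ₗ[K] (R.H.obj M ⟶ R.H.obj M) where
  toFun x := pt R (μ R.H M N ≫ x ≫ δ R.H M N)
  map_add' x y := by rw [Preadditive.add_comp, Preadditive.comp_add, pt_add]
  map_smul' c x := by rw [Linear.smul_comp, Linear.comp_smul, pt_smul, RingHom.id_apply]

lemma ptK_mem {M N : C} {x : R.H.obj (M ⊗ N) ⟶ R.H.obj (M ⊗ N)} (hx : x ∈ alg R (M ⊗ N)) :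
    ptK R M N x ∈ alg R M := by
  refine Submodule.span_induction (p := fun x _ => ptK R M N x ∈ alg R M) ?_ ?_ ?_ ?_ hx
  · rintro _ ⟨f, rfl⟩
    change pt R (μ R.H M N ≫ R.H.map f ≫ δ R.H M N) ∈ _
    rw [← map_ptr]
    exact map_mem _
  · rw [map_zero]
    exact Submodule.zero_mem _
  · intro x y _ _ hx hy
    rw [map_add]
    exact Submodule.add_mem _ hx hy
  · intro c x _ hx
    rw [map_smul]
    exact Submodule.smul_mem _ _ hx

lemma gr_gr {M N : C} (i j k : ℤ) : (𝒢.gr M i ⊗ₘ 𝒢.gr N j) ≫ μ R.H M N ≫ 𝒢.gr (M ⊗ N) k =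
    if i + j = k then (𝒢.gr M i ⊗ₘ 𝒢.gr N j) ≫ μ R.H M N else 0 := by
  split_ifs with h
  · subst h
    rw [← Category.assoc, 𝒢.gr_tensor]
  · rw [← Category.assoc, ← 𝒢.gr_tensor, Category.assoc, 𝒢.gr_orth _ _ _ h, comp_zero]

lemma gr_mu_all {M N : C} {dM dN : ℕ} (hM : ∀ i : ℤ, (dM : ℤ) < |i| → 𝒢.gr M i = 0)
    (hN : ∀ i : ℤ, (dN : ℤ) < |i| → 𝒢.gr N i = 0) (k : ℤ) :
    μ R.H M N ≫ 𝒢.gr (M ⊗ N) k = ∑ i ∈ range (2 * dM + 1), ∑ j ∈ range (2 * dN + 1),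
      if ((i : ℤ) - dM) + ((j : ℤ) - dN) = k then
        (sg 𝒢 M dM i ⊗ₘ sg 𝒢 N dN j) ≫ μ R.H M N else 0 := by
  have h1 : μ R.H M N ≫ 𝒢.gr (M ⊗ N) k = (𝟙 (R.H.obj M) ⊗ₘ 𝟙 (R.H.obj N)) ≫
      (μ R.H M N ≫ 𝒢.gr (M ⊗ N) k) := by
    rw [id_tensorHom_id, Category.id_comp]
  rw [h1, ← sg_sum 𝒢 hM, ← sg_sum 𝒢 hN, sum_tensor, Preadditive.sum_comp]
  refine sum_congr rfl (fun i _ => ?_)
  rw [tensor_sum, Preadditive.sum_comp]
  refine sum_congr rfl (fun j _ => ?_)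
  exact gr_gr 𝒢 _ _ k

lemma gr_mu {M N : C} {dM dN : ℕ} (hM : ∀ i : ℤ, (dM : ℤ) < |i| → 𝒢.gr M i = 0)
    (hN : ∀ i : ℤ, (dN : ℤ) < |i| → 𝒢.gr N i = 0) (m : ℕ) :
    μ R.H M N ≫ sg 𝒢 (M ⊗ N) (dM + dN) m =
      (∑ p ∈ antidiagonal m, (sg 𝒢 M dM p.1 ⊗ₘ sg 𝒢 N dN p.2)) ≫ μ R.H M N := by
  classical
  unfold sg
  rw [gr_mu_all 𝒢 hM hN, Preadditive.sum_comp, ← sum_product', ← sum_filter]
  refine sum_subset ?_ ?_
  · intro p hp
    rw [mem_filter] at hp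
    rw [HasAntidiagonal.mem_antidiagonal]
    have := hp.2
    push_cast at this
    omega
  · intro p hp hnot
    rw [HasAntidiagonal.mem_antidiagonal] at hp
    have h4 : 2 * dM < p.1 ∨ 2 * dN < p.2 := by
      by_contra hcon
      push Not at hcon
      apply hnot
      rw [mem_filter, mem_product, mem_range, mem_range]
      refine ⟨by omega, ?_⟩
      push_cast
      omega
    rcases h4 with h4 | h4
    · rw [sg_zero 𝒢 hM h4, MonoidalPreadditive.zero_tensor, zero_comp]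
    · rw [sg_zero 𝒢 hN h4, MonoidalPreadditive.tensor_zero, zero_comp]

lemma trace_gr {N : C} (b : N ⟶ N) (j : ℤ) :
    LinearMap.trace K _ ((𝒢.gr N j ≫ R.H.map b) ≫ R.par N).hom =
      (-1) ^ j * LinearMap.trace K _ (R.H.map b ≫ 𝒢.gr N j).hom := by
  rw [← 𝒢.gr_natural, Category.assoc, 𝒢.gr_par, Linear.comp_smul, ModuleCat.hom_smul, map_smul,
    smul_eq_mul]

/-- The partial trace of the Künneth components of `a ⊗ b`. -/
lemma ptK_gr {M N : C} {dM dN : ℕ} (hM : ∀ i : ℤ, (dM : ℤ) < |i| → 𝒢.gr M i = 0)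
    (hN : ∀ i : ℤ, (dN : ℤ) < |i| → 𝒢.gr N i = 0) (a : M ⟶ M) (b : N ⟶ N) (k : ℕ) :
    ptK R M N (sg 𝒢 (M ⊗ N) (dM + dN) k ≫ R.H.map (a ⊗ₘ b)) = ∑ p ∈ antidiagonal k,
      ((-1) ^ (dN + p.2) * LinearMap.trace K _ (R.H.map b ≫ sg 𝒢 N dN p.2).hom) •
        (sg 𝒢 M dM p.1 ≫ R.H.map a) := by
  have h2 : (2 : K) ≠ 0 := by
    have := R_charZero R
    exact two_ne_zero
  change pt R (μ R.H M N ≫ (sg 𝒢 (M ⊗ N) (dM + dN) k ≫ R.H.map (a ⊗ₘ b)) ≫ δ R.H M N) = _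
  have h1 : μ R.H M N ≫ (sg 𝒢 (M ⊗ N) (dM + dN) k ≫ R.H.map (a ⊗ₘ b)) ≫ δ R.H M N =
      ∑ p ∈ antidiagonal k, ((sg 𝒢 M dM p.1 ≫ R.H.map a) ⊗ₘ (sg 𝒢 N dN p.2 ≫ R.H.map b)) := by
    have h3 : μ R.H M N ≫ (sg 𝒢 (M ⊗ N) (dM + dN) k ≫ R.H.map (a ⊗ₘ b)) ≫ δ R.H M N =
        (∑ p ∈ antidiagonal k, (sg 𝒢 M dM p.1 ⊗ₘ sg 𝒢 N dN p.2)) ≫
          (μ R.H M N ≫ R.H.map (a ⊗ₘ b) ≫ δ R.H M N) := by
      rw [Category.assoc, ← Category.assoc (μ R.H M N), gr_mu 𝒢 hM hN, Category.assoc]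
    have h4 : μ R.H M N ≫ R.H.map (a ⊗ₘ b) ≫ δ R.H M N = (R.H.map a ⊗ₘ R.H.map b) := by
      rw [← Category.assoc, ← Functor.LaxMonoidal.μ_natural, Category.assoc,
        Functor.Monoidal.μ_δ, Category.comp_id]
    rw [h3, h4, Preadditive.sum_comp]
    refine sum_congr rfl (fun p _ => ?_)
    rw [tensorHom_comp_tensorHom]
  rw [h1]
  have h5 : ∀ s : Finset (ℕ × ℕ), pt R (∑ p ∈ s, ((sg 𝒢 M dM p.1 ≫ R.H.map a) ⊗ₘ
      (sg 𝒢 N dN p.2 ≫ R.H.map b))) = ∑ p ∈ s, pt R ((sg 𝒢 M dM p.1 ≫ R.H.map a) ⊗ₘ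
      (sg 𝒢 N dN p.2 ≫ R.H.map b)) := by
    classical
    intro s
    induction s using Finset.induction_on with
    | empty =>
      rw [sum_empty, sum_empty]
      have := pt_smul (R := R) (M := M) (N := N) (0 : K) 0
      simpa using this
    | insert p s hp ih => rw [sum_insert hp, sum_insert hp, pt_add, ih]
  rw [h5]
  refine sum_congr rfl (fun p _ => ?_)
  rw [pt_tensor R h2]
  unfold sg
  rw [trace_gr]
  congr 2
  have h6 : ((-1 : K) ^ dN) * (-1) ^ dN = 1 := by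
    rw [← mul_pow, neg_one_mul, neg_neg, one_pow]
  have h7 : ((-1 : K) ^ dN)⁻¹ = (-1) ^ dN := by
    rw [inv_eq_of_mul_eq_one_left h6]
  rw [zpow_sub₀ (neg_ne_zero.2 one_ne_zero), zpow_natCast, zpow_natCast, div_eq_mul_inv, h7,
    pow_add, mul_comm]

/-- The values of the Künneth polynomial composed with the twisted partial trace. -/
lemma value_mem {M N : C} {ι : Type} [Fintype ι] (a : ι → (M ⟶ M)) (b : ι → (N ⟶ N))
    (h : Kun 𝒢 (∑ l, (a l ⊗ₘ b l))) {dM dN : ℕ} (hM : ∀ i : ℤ, (dM : ℤ) < |i| → 𝒢.gr M i = 0)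
    (hN : ∀ i : ℤ, (dN : ℤ) < |i| → 𝒢.gr N i = 0) (s : K) :
    (∑ i ∈ range (2 * dM + 1), (-s) ^ i • sg 𝒢 M dM i) ≫ twist' 𝒢 M N a b dN s ∈ alg R M := by
  classical
  -- the coefficients
  have h1 : ∀ k : ℕ, ∑ l, ∑ p ∈ antidiagonal k,
      ((-1) ^ (dN + p.2) * LinearMap.trace K _ (R.H.map (b l) ≫ sg 𝒢 N dN p.2).hom) •
        (sg 𝒢 M dM p.1 ≫ R.H.map (a l)) ∈ alg R M := by
    intro k
    have h2 := ptK_mem (h ((k : ℤ) - ((dM + dN : ℕ) : ℤ)))
    rw [R.H.map_sum, Preadditive.comp_sum, map_sum] at h2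
    have h3 := fun l => ptK_gr 𝒢 hM hN (a l) (b l) k
    rw [← sum_congr rfl (fun l _ => h3 l)]
    exact h2
  -- reorder
  have h3 : (∑ i ∈ range (2 * dM + 1), (-s) ^ i • sg 𝒢 M dM i) ≫ twist' 𝒢 M N a b dN s =
      ∑ k ∈ range (2 * dM + 2 * dN + 1), ((-1) ^ dN * (-s) ^ k) • ∑ l, ∑ p ∈ antidiagonal k,
      ((-1) ^ (dN + p.2) * LinearMap.trace K _ (R.H.map (b l) ≫ sg 𝒢 N dN p.2).hom) •
        (sg 𝒢 M dM p.1 ≫ R.H.map (a l)) := by
    have e1 : ∀ (l : ι), ∑ k ∈ range (2 * dM + 2 * dN + 1), ∑ p ∈ antidiagonal k,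
        ((-1) ^ dN * (-s) ^ k) • ((-1) ^ (dN + p.2) *
          LinearMap.trace K _ (R.H.map (b l) ≫ sg 𝒢 N dN p.2).hom) •
          (sg 𝒢 M dM p.1 ≫ R.H.map (a l)) =
        ∑ p ∈ range (2 * dM + 1) ×ˢ range (2 * dN + 1),
          ((-1) ^ dN * (-s) ^ (p.1 + p.2)) • ((-1) ^ (dN + p.2) *
            LinearMap.trace K _ (R.H.map (b l) ≫ sg 𝒢 N dN p.2).hom) •
          (sg 𝒢 M dM p.1 ≫ R.H.map (a l)) := by
      intro l
      rw [sum_sigma']
      refine (sum_of_injOn (fun p : ℕ × ℕ => (⟨p.1 + p.2, p⟩ : (_ : ℕ) × ℕ × ℕ)) ?_ ?_ ?_ ?_).symm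
      · intro p _ q _ hpq
        simpa using congrArg Sigma.snd hpq
      · intro p hp
        simp only [coe_product, coe_range, Set.mem_prod, Set.mem_Iio] at hp
        simp only [coe_sigma, Set.mem_sigma_iff, coe_range, Set.mem_Iio, mem_coe,
          HasAntidiagonal.mem_antidiagonal]
        exact ⟨by omega, trivial⟩
      · rintro ⟨k, p⟩ hk hnot
        rw [mem_sigma, HasAntidiagonal.mem_antidiagonal] at hk
        obtain ⟨hk1, hk2⟩ := hk
        simp only at hk2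
        subst hk2
        have h4 : 2 * dM < p.1 ∨ 2 * dN < p.2 := by
          by_contra hcon
          push Not at hcon
          apply hnot
          refine ⟨p, ?_, rfl⟩
          simp only [coe_product, coe_range, Set.mem_prod, Set.mem_Iio]
          omega
        rcases h4 with h4 | h4
        · simp only [sg_zero 𝒢 hM h4, zero_comp, smul_zero]
        · simp only [sg_zero 𝒢 hN h4, comp_zero, ModuleCat.hom_zero, map_zero, mul_zero, zero_smul,
            smul_zero]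
      · intro p _
        rfl
    have e2 : ∑ k ∈ range (2 * dM + 2 * dN + 1), ((-1) ^ dN * (-s) ^ k) •
        ∑ l, ∑ p ∈ antidiagonal k,
        ((-1) ^ (dN + p.2) * LinearMap.trace K _ (R.H.map (b l) ≫ sg 𝒢 N dN p.2).hom) •
          (sg 𝒢 M dM p.1 ≫ R.H.map (a l)) =
        ∑ l, ∑ k ∈ range (2 * dM + 2 * dN + 1), ∑ p ∈ antidiagonal k,
        ((-1) ^ dN * (-s) ^ k) • ((-1) ^ (dN + p.2) *
          LinearMap.trace K _ (R.H.map (b l) ≫ sg 𝒢 N dN p.2).hom) •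
          (sg 𝒢 M dM p.1 ≫ R.H.map (a l)) := by
      rw [sum_comm]
      refine sum_congr rfl (fun k _ => ?_)
      rw [smul_sum]
      refine sum_congr rfl (fun l _ => ?_)
      rw [smul_sum]
    rw [e2, sum_congr rfl (fun l _ => e1 l)]
    rw [twist', Preadditive.comp_sum]
    refine sum_congr rfl (fun l _ => ?_)
    rw [sum_product, Preadditive.sum_comp]
    refine sum_congr rfl (fun i _ => ?_)
    rw [Linear.smul_comp, Linear.comp_smul, sum_smul, smul_sum]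
    refine sum_congr rfl (fun j _ => ?_)
    rw [smul_smul, smul_smul]
    congr 1
    rw [pow_add, pow_add, neg_pow s j]
    have h5 : ((-1 : K) ^ j) * (-1) ^ j = 1 := by
      rw [← mul_pow, neg_one_mul, neg_neg, one_pow]
    have h6 : ((-1 : K) ^ dN) * (-1) ^ dN = 1 := by
      rw [← mul_pow, neg_one_mul, neg_neg, one_pow]
    linear_combination (-(-s) ^ i * s ^ j *
      LinearMap.trace K _ (R.H.map (b l) ≫ sg 𝒢 N dN j).hom) *
        ((-1 : K) ^ dN * (-1) ^ dN * h5 + h6)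
  rw [h3]
  exact Submodule.sum_mem _ (fun k _ => Submodule.smul_mem _ _ (h1 k))

/-- the algebraic classes as endomorphisms of the vector space -/
def algE (R : SuperRealisation C K) (X : C) : Submodule K (Module.End K (R.H.obj X)) :=
  (alg R X).comap (ModuleCat.homLinearEquiv (S := K)).symm.toLinearMap

lemma mem_algE {X : C} (x : R.H.obj X ⟶ R.H.obj X) : x.hom ∈ algE R X ↔ x ∈ alg R X := Iff.rfl

lemma algE_mul {X : C} (x y : Module.End K (R.H.obj X)) (hx : x ∈ algE R X)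
    (hy : y ∈ algE R X) : x * y ∈ algE R X :=
  comp_mem (a := ModuleCat.ofHom y) (b := ModuleCat.ofHom x) hy hx

lemma algE_one {X : C} : (1 : Module.End K (R.H.obj X)) ∈ algE R X := by
  have h : 𝟙 (R.H.obj X) ∈ alg R X := by
    rw [← R.H.map_id]
    exact map_mem _
  exact h

/-- **Descent of the Künneth conjecture.** -/
theorem descent {M N : C} {ι : Type} [Fintype ι] (a : ι → (M ⟶ M)) (b : ι → (N ⟶ N))
    (h : Kun 𝒢 (∑ l, (a l ⊗ₘ b l))) {d : ℕ} (hN : ∀ i : ℤ, (d : ℤ) < |i| → 𝒢.gr N i = 0) (s0 : K)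
    (hs0 : s0 ≠ 0) (h0' : Function.Injective (twist 𝒢 M N a b d s0).hom) : Kun 𝒢 (𝟙 M) := by
  have hK := R_charZero R
  have hfin := R.finite M
  have h0 : Function.Injective (twist' 𝒢 M N a b d s0).hom := by
    rw [twist_eq 𝒢 M N a b d hs0, ModuleCat.hom_smul]
    intro x y hxy
    refine h0' ?_
    rw [LinearMap.smul_apply, LinearMap.smul_apply] at hxy
    exact smul_right_injective _ (pow_ne_zero d hs0) hxy
  obtain ⟨dM, hM, -⟩ := 𝒢.gr_sum M
  let z : ℕ → Module.End K (R.H.obj M) := fun j =>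
    ∑ l, LinearMap.trace K _ (R.H.map (b l) ≫ sg 𝒢 N d j).hom • (R.H.map (a l)).hom
  have hz : ∀ s, (twist' 𝒢 M N a b d s).hom = ∑ j ∈ range (2 * d + 1), s ^ j • z j := by
    intro s
    simp only [twist', z, ModuleCat.hom_sum, ModuleCat.hom_smul, smul_sum, sum_smul, smul_smul]
    rw [sum_comm]
  have hzA : ∀ j, z j ∈ algE R M := fun j =>
    Submodule.sum_mem _ (fun l _ => Submodule.smul_mem _ _ ((mem_algE _).2 (map_mem (a l))))
  rw [hz] at h0
  obtain ⟨F, hF⟩ := finite_bad z (2 * d) s0 h0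
  have key : ∀ s, s ∉ F → ∑ i ∈ range (2 * dM + 1), (-s) ^ i • (sg 𝒢 M dM i).hom ∈ algE R M := by
    intro s hs
    have hZ : (∑ j ∈ range (2 * d + 1), s ^ j • z j : Module.End K (R.H.obj M)) ∈ algE R M :=
      Submodule.sum_mem _ (fun j _ => Submodule.smul_mem _ _ (hzA j))
    obtain ⟨z', hz', hzz⟩ := exists_left_inv (algE R M) algE_one (fun x hx y hy =>
      algE_mul x y hx hy) hZ (hF s hs)
    have h1 := value_mem 𝒢 a b h hM hN s
    have h2 : (∑ j ∈ range (2 * d + 1), s ^ j • z j : Module.End K (R.H.obj M)) *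
        (∑ i ∈ range (2 * dM + 1), (-s) ^ i • (sg 𝒢 M dM i).hom) ∈ algE R M := by
      rw [← mem_algE, ModuleCat.hom_comp, hz, ModuleCat.hom_sum] at h1
      simp only [ModuleCat.hom_smul] at h1
      exact h1
    have h3 := algE_mul z' _ hz' h2
    rwa [← mul_assoc, hzz, one_mul] at h3
  intro k
  rw [R.H.map_id, Category.comp_id]
  by_cases hk : ∃ i : ℕ, i < 2 * dM + 1 ∧ (i : ℤ) - dM = k
  · obtain ⟨i, hi, rfl⟩ := hk
    rw [← mem_algE]
    exact coeff_mem (algE R M) (fun i => (sg 𝒢 M dM i).hom) (2 * dM) F key i (by omega)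
  · push Not at hk
    rw [gr_out 𝒢 hM hk]
    exact Submodule.zero_mem _

/-- tensor product of operators on the realisations -/
noncomputable def tens (R : SuperRealisation C K) {M N : C} (a : R.H.obj M ⟶ R.H.obj M)
    (b : R.H.obj N ⟶ R.H.obj N) : R.H.obj (M ⊗ N) ⟶ R.H.obj (M ⊗ N) :=
  δ R.H M N ≫ (a ⊗ₘ b) ≫ μ R.H M N

lemma gr_tens {M N : C} {dM dN : ℕ} (hM : ∀ i : ℤ, (dM : ℤ) < |i| → 𝒢.gr M i = 0)
    (hN : ∀ i : ℤ, (dN : ℤ) < |i| → 𝒢.gr N i = 0) (k : ℤ) :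
    𝒢.gr (M ⊗ N) k = ∑ i ∈ range (2 * dM + 1), ∑ j ∈ range (2 * dN + 1),
      if ((i : ℤ) - dM) + ((j : ℤ) - dN) = k then tens R (sg 𝒢 M dM i) (sg 𝒢 N dN j) else 0 := by
  have h2 : 𝒢.gr (M ⊗ N) k = δ R.H M N ≫ μ R.H M N ≫ 𝒢.gr (M ⊗ N) k := by
    rw [← Category.assoc, Functor.Monoidal.δ_μ, Category.id_comp]
  rw [h2, gr_mu_all 𝒢 hM hN, Preadditive.comp_sum]
  refine sum_congr rfl (fun i _ => ?_)
  rw [Preadditive.comp_sum]
  refine sum_congr rfl (fun j _ => ?_)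
  unfold tens
  split_ifs
  · rfl
  · exact comp_zero

end

end Pool.Agent.V8H87.DQ
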