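import Pool.Agent.V8H87.DQ.Reg
import Pool.Agent.V8H87.DQ.Kun

/-!
# The Künneth components of diagonal quotients
-/

set_option autoImplicit false
set_option linter.unusedSectionVars false

open CategoryTheory Limits MonoidalCategory Module Finset
open Pool.Agent.Y112.SR

namespace Pool.Agent.V8H87.DQ

universe v u w

open Functor.LaxMonoidal Functor.OplaxMonoidal

section

variable {C : Type u} [Category.{v} C] [Preadditive C] [Linear ℚ C] [MonoidalCategory C]
  [MonoidalPreadditive C] [MonoidalLinear ℚ C] [SymmetricCategory C]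
  [RightRigidCategory C] {K : Type w} [Field K]
  (R : SuperRealisation C K) {G : Type} [Group G] [Fintype G]

/-- The action of an element of the group ring `K[G]` on `R(M)`. -/
noncomputable def act {M : C} (ρ : G →* End M) (x : MonoidAlgebra K G) :
    R.H.obj M ⟶ R.H.obj M := ∑ g, x.coeff g • R.H.map (ρ g : M ⟶ M)

/-- The action of an element `Σ x_g g` of `K[G]` on `R(N)` through the inverses `g⁻¹`: the transpose
of its action on the dual representation. -/
noncomputable def dualAct {N : C} (σ : G →* End N) (x : MonoidAlgebra K G) :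
    R.H.obj N ⟶ R.H.obj N := ∑ g, x.coeff g • R.H.map (σ g⁻¹ : N ⟶ N)

/-- The projector of `M ⊗ N` to the invariants of the diagonal action of `G`. -/
noncomputable def diag {M N : C} (ρ : G →* End M) (σ : G →* End N) : M ⊗ N ⟶ M ⊗ N :=
  (Fintype.card G : ℚ)⁻¹ • ∑ g, ((ρ g : M ⟶ M) ⊗ₘ (σ g : N ⟶ N))

/-- `x ∈ K[G]` is a combination of types (irreducible representations) whose dual occurs in `R(N)`:
it annihilates the elements of `K[G]` which act as zero on the dual of `R(N)`. -/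
def Seen {N : C} (σ : G →* End N) (x : MonoidAlgebra K G) : Prop :=
  ∀ y : MonoidAlgebra K G, dualAct R σ y = 0 → x * y = 0

/-- All types of `R(M)` are dual to types of `R(N)`: an element of `K[G]` which acts as zero on the
dual of `R(N)` acts as zero on `R(M)`. -/
def TypesIn {M N : C} (ρ : G →* End M) (σ : G →* End N) : Prop :=
  ∀ y : MonoidAlgebra K G, dualAct R σ y = 0 → act R ρ y = 0

/-- The supertraces of the elements `g ≠ 1` on `R(N)` are zero and the one of `1` is not zero.  By the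
Lefschetz formula this is the case for free actions on varieties of nonzero Euler number. -/
def FreeType {N : C} (σ : G →* End N) : Prop :=
  (∀ g : G, g ≠ 1 → LinearMap.trace K _ (R.H.map (σ g : N ⟶ N) ≫ R.par N).hom = 0) ∧
    LinearMap.trace K _ (R.par N).hom ≠ 0

/-- the representation on the realisation -/
noncomputable def rep {M : C} (ρ : G →* End M) : G →* Module.End K (R.H.obj M) where
  toFun g := (R.H.map (ρ g : M ⟶ M)).hom
  map_one' := by
    rw [map_one]
    change (R.H.map (𝟙 M)).hom = 1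
    rw [R.H.map_id]
    rfl
  map_mul' g h := by
    rw [map_mul]
    change (R.H.map ((ρ h : M ⟶ M) ≫ ρ g)).hom = _
    rw [R.H.map_comp]
    rfl

lemma act_hom {M : C} (ρ : G →* End M) (x : MonoidAlgebra K G) :
    (act R ρ x).hom = ev (rep R ρ) x := by
  simp only [act, ev, ModuleCat.hom_sum, ModuleCat.hom_smul]
  rfl

lemma dualAct_hom {M : C} (ρ : G →* End M) (x : MonoidAlgebra K G) :
    (dualAct R ρ x).hom = hat (rep R ρ) x := by
  simp only [dualAct, hat, ModuleCat.hom_sum, ModuleCat.hom_smul]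
  rfl

lemma dualAct_zero_iff {M : C} (ρ : G →* End M) (x : MonoidAlgebra K G) :
    dualAct R ρ x = 0 ↔ hat (rep R ρ) x = 0 := by
  rw [← dualAct_hom]
  constructor
  · intro h
    rw [h]
    rfl
  · intro h
    ext1
    exact h

lemma act_mul {M : C} (ρ : G →* End M) (x y : MonoidAlgebra K G) :
    act R ρ (x * y) = act R ρ y ≫ act R ρ x := by
  ext1
  rw [act_hom, ev_mul, ModuleCat.hom_comp, act_hom, act_hom]
  rfl

lemma act_one {M : C} (ρ : G →* End M) : act R ρ 1 = 𝟙 _ := by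
  ext1
  rw [act_hom, ev_one]
  rfl

lemma act_sub {M : C} (ρ : G →* End M) (x y : MonoidAlgebra K G) :
    act R ρ (x - y) = act R ρ x - act R ρ y := by
  ext1
  rw [act_hom, ev_sub, ModuleCat.hom_sub, act_hom, act_hom]

lemma act_mem {M : C} (ρ : G →* End M) (x : MonoidAlgebra K G) : act R ρ x ∈ alg R M :=
  Submodule.sum_mem _ (fun g _ => Submodule.smul_mem _ _ (map_mem (ρ g)))

variable {R} (𝒢 : Grading R)

lemma map_rat_smul {X Y : C} (q : ℚ) (f : X ⟶ Y) :
    R.H.map (q • f) = (q : K) • R.H.map f := by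
  have hK := R_charZero R
  have h1 : (q.den : K) ≠ 0 := Nat.cast_ne_zero.2 q.den_ne_zero
  have h2 : (q.den : K) • R.H.map (q • f) = (q.num : K) • R.H.map f := by
    rw [Nat.cast_smul_eq_nsmul, Int.cast_smul_eq_zsmul, ← Functor.map_nsmul, ← Functor.map_zsmul]
    congr 1
    rw [← Nat.cast_smul_eq_nsmul ℚ, ← Int.cast_smul_eq_zsmul ℚ, smul_smul, Rat.den_mul_eq_num]
  have h3 : (q : K) = (q.den : K)⁻¹ * q.num := by
    rw [mul_comm, ← div_eq_mul_inv, ← Rat.cast_def]
  rw [h3, ← smul_smul, ← h2, smul_smul, inv_mul_cancel₀ h1, one_smul]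

lemma kun_smul {X : C} (q : ℚ) (hq : q ≠ 0) (e : X ⟶ X) : Kun 𝒢 (q • e) ↔ Kun 𝒢 e := by
  have hK := R_charZero R
  have hq' : (q : K) ≠ 0 := Rat.cast_ne_zero.2 hq
  refine forall_congr' (fun k => ?_)
  rw [map_rat_smul, Linear.comp_smul]
  exact (Submodule.smul_mem_iff _ hq')

lemma kun_diag {M N : C} (ρ : G →* End M) (σ : G →* End N) :
    Kun 𝒢 (diag ρ σ) ↔ Kun 𝒢 (∑ g, ((ρ g : M ⟶ M) ⊗ₘ (σ g : N ⟶ N))) :=
  kun_smul 𝒢 _ (by
    rw [Ne, inv_eq_zero, Nat.cast_eq_zero]
    exact Fintype.card_ne_zero) _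

/-- `diag` is an idempotent. -/
lemma diag_idem {M N : C} (ρ : G →* End M) (σ : G →* End N) :
    diag ρ σ ≫ diag ρ σ = diag ρ σ := by
  unfold diag
  rw [Linear.smul_comp, Linear.comp_smul]
  congr 1
  rw [Preadditive.sum_comp]
  have h1 : ∀ g : G, ((ρ g : M ⟶ M) ⊗ₘ (σ g : N ⟶ N)) ≫ ∑ h, ((ρ h : M ⟶ M) ⊗ₘ (σ h : N ⟶ N)) =
      ∑ h, ((ρ h : M ⟶ M) ⊗ₘ (σ h : N ⟶ N)) := by
    intro g
    rw [Preadditive.comp_sum, ← Equiv.sum_comp (Equiv.mulRight g)
      (fun h => ((ρ h : M ⟶ M) ⊗ₘ (σ h : N ⟶ N)))]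
    refine sum_congr rfl (fun h _ => ?_)
    rw [Equiv.coe_mulRight, map_mul, map_mul, tensorHom_comp_tensorHom]
    rfl
  rw [sum_congr rfl (fun g _ => h1 g), sum_const, card_univ, ← Nat.cast_smul_eq_nsmul ℚ, smul_smul,
    inv_mul_cancel₀ (Nat.cast_ne_zero.2 Fintype.card_ne_zero), one_smul]

/-- The Künneth conjecture for the part of `M` on which `G` acts by types occurring in the dual of
`R(N)`: the products of the Künneth components of `M` with the elements of `K[G]` which are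
combinations of such types are algebraic. -/
def KunSeen {M N : C} (ρ : G →* End M) (σ : G →* End N) : Prop :=
  ∀ x : MonoidAlgebra K G, Seen R σ x → ∀ k, 𝒢.gr M k ≫ act R ρ x ∈ alg R M

/-- The products of the Künneth components with the seen part of the group ring. -/
theorem seen_mem {M N : C} (ρ : G →* End M) (σ : G →* End N) (h : Kun 𝒢 (diag ρ σ))
    {x : MonoidAlgebra K G} (hx : Seen R σ x) (k : ℤ) : 𝒢.gr M k ≫ act R ρ x ∈ alg R M := by
  have hK := R_charZero R
  have hfin := R.finite N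
  rw [kun_diag] at h
  obtain ⟨dM, hM, -⟩ := 𝒢.gr_sum M
  obtain ⟨dN, hN, -⟩ := 𝒢.gr_sum N
  have hcom : ∀ j g, rep R σ g * (sg 𝒢 N dN j).hom = (sg 𝒢 N dN j).hom * rep R σ g := by
    intro j g
    have h1 := congrArg ModuleCat.Hom.hom (𝒢.gr_natural (σ g : N ⟶ N) ((j : ℤ) - dN))
    exact h1.symm
  have hsum : ∑ j ∈ range (2 * dN + 1), (sg 𝒢 N dN j).hom = 1 := by
    rw [← ModuleCat.hom_sum, sg_sum 𝒢 hN]
    rfl
  obtain ⟨F, hF⟩ := key (rep R σ) (fun j => (sg 𝒢 N dN j).hom) (2 * dN) hsum hcom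
  have h1 : ∀ s, s ∉ F → ∑ i ∈ range (2 * dM + 1), (-s) ^ i • (sg 𝒢 M dM i ≫ act R ρ x) ∈
      alg R M := by
    intro s hs
    obtain ⟨v, hv⟩ := hF s hs
    have h2 := value_mem 𝒢 (fun g => (ρ g : M ⟶ M)) (fun g => (σ g : N ⟶ N)) h hM hN s
    have h3 : twist' 𝒢 M N (fun g => (ρ g : M ⟶ M)) (fun g => (σ g : N ⟶ N)) dN s =
        act R ρ (∑ j ∈ range (2 * dN + 1), s ^ j • chr (rep R σ) (sg 𝒢 N dN j).hom) := by
      unfold twist' act
      refine sum_congr rfl (fun g _ => ?_)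
      congr 1
      rw [MonoidAlgebra.coeff_sum, Finsupp.finsetSum_apply]
      refine sum_congr rfl (fun j _ => ?_)
      rw [MonoidAlgebra.coeff_smul, Finsupp.smul_apply, smul_eq_mul]
      congr 1
      simp only [chr, coeff_mk]
      rw [hcom]
      rfl
    have h4 := comp_mem h2 (act_mem R ρ (x * v))
    rw [h3, Category.assoc, ← act_mul, hv x (fun y hy => hx y ((dualAct_zero_iff R σ y).2 hy)),
      Preadditive.sum_comp] at h4
    simpa only [Linear.smul_comp] using h4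
  by_cases hk : ∃ i : ℕ, i < 2 * dM + 1 ∧ (i : ℤ) - dM = k
  · obtain ⟨i, hi, rfl⟩ := hk
    exact coeff_mem (alg R M) (fun i => sg 𝒢 M dM i ≫ act R ρ x) (2 * dM) F h1 i (by omega)
  · push Not at hk
    rw [gr_out 𝒢 hM hk, zero_comp]
    exact Submodule.zero_mem _

/-- Swapping the factors. -/
lemma kun_swap {M N : C} (ρ : G →* End M) (σ : G →* End N) (h : Kun 𝒢 (diag ρ σ)) :
    Kun 𝒢 (diag σ ρ) := by
  intro k
  have h1 : diag σ ρ = (β_ N M).hom ≫ diag ρ σ ≫ (β_ M N).hom := by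
    unfold diag
    rw [Linear.smul_comp, Linear.comp_smul]
    congr 1
    rw [Preadditive.sum_comp, Preadditive.comp_sum]
    refine sum_congr rfl (fun g _ => ?_)
    rw [BraidedCategory.braiding_naturality, SymmetricCategory.symmetry_assoc]
  have h2 : 𝒢.gr (N ⊗ M) k ≫ R.H.map (diag σ ρ) =
      R.H.map (β_ N M).hom ≫ (𝒢.gr (M ⊗ N) k ≫ R.H.map (diag ρ σ)) ≫ R.H.map (β_ M N).hom := by
    rw [h1, R.H.map_comp, R.H.map_comp, ← Category.assoc, ← 𝒢.gr_natural]
    simp only [Category.assoc]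
  rw [h2]
  refine Submodule.span_induction (p := fun a _ =>
    R.H.map (β_ N M).hom ≫ a ≫ R.H.map (β_ M N).hom ∈ alg R (N ⊗ M)) ?_ ?_ ?_ ?_ (h k)
  · rintro _ ⟨f, rfl⟩
    rw [← R.H.map_comp, ← R.H.map_comp]
    exact map_mem _
  · rw [zero_comp, comp_zero]
    exact Submodule.zero_mem _
  · intro x y _ _ hx hy
    rw [Preadditive.add_comp, Preadditive.comp_add]
    exact Submodule.add_mem _ hx hy
  · intro c x _ hx
    rw [Linear.smul_comp, Linear.comp_smul]
    exact Submodule.smul_mem _ _ hx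

lemma tens_comp {M N : C} (a a' : R.H.obj M ⟶ R.H.obj M) (b b' : R.H.obj N ⟶ R.H.obj N) :
    tens R a b ≫ tens R a' b' = tens R (a ≫ a') (b ≫ b') := by
  unfold tens
  rw [← tensorHom_comp_tensorHom]
  simp only [Category.assoc, Functor.Monoidal.μ_δ_assoc]

lemma tens_map {M N : C} (f : M ⟶ M) (g : N ⟶ N) :
    R.H.map (f ⊗ₘ g) = tens R (R.H.map f) (R.H.map g) := by
  unfold tens
  rw [Functor.LaxMonoidal.μ_natural, ← Category.assoc, Functor.Monoidal.δ_μ, Category.id_comp]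

lemma tens_id {M N : C} : tens R (𝟙 (R.H.obj M)) (𝟙 (R.H.obj N)) = 𝟙 _ := by
  unfold tens
  rw [id_tensorHom_id, Category.id_comp, Functor.Monoidal.δ_μ]

lemma tens_sub_left {M N : C} (a a' : R.H.obj M ⟶ R.H.obj M) (b : R.H.obj N ⟶ R.H.obj N) :
    tens R (a - a') b = tens R a b - tens R a' b := by
  unfold tens
  rw [← Preadditive.comp_sub, ← Preadditive.sub_comp]
  congr 2
  rw [sub_eq_add_neg, MonoidalPreadditive.add_tensor, sub_eq_add_neg]
  congr 1
  have h1 : (-a' ⊗ₘ b) + (a' ⊗ₘ b) = 0 := by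
    rw [← MonoidalPreadditive.add_tensor, neg_add_cancel, MonoidalPreadditive.zero_tensor]
  exact eq_neg_of_add_eq_zero_left h1

lemma tens_smul_left {M N : C} (c : K) (a : R.H.obj M ⟶ R.H.obj M) (b : R.H.obj N ⟶ R.H.obj N) :
    tens R (c • a) b = c • tens R a b := by
  unfold tens
  have h4 : (c • a ⊗ₘ b) = c • (a ⊗ₘ b) := by
    rw [MonoidalCategory.tensorHom_def, MonoidalLinear.smul_whiskerRight, Linear.smul_comp,
      ← MonoidalCategory.tensorHom_def]
  rw [h4, Linear.smul_comp, Linear.comp_smul]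

lemma tens_smul_right {M N : C} (c : K) (a : R.H.obj M ⟶ R.H.obj M) (b : R.H.obj N ⟶ R.H.obj N) :
    tens R a (c • b) = c • tens R a b := by
  unfold tens
  have h4 : (a ⊗ₘ c • b) = c • (a ⊗ₘ b) := by
    rw [MonoidalCategory.tensorHom_def, MonoidalLinear.whiskerLeft_smul, Linear.comp_smul,
      ← MonoidalCategory.tensorHom_def]
  rw [h4, Linear.smul_comp, Linear.comp_smul]

lemma tens_add_left {M N : C} (a a' : R.H.obj M ⟶ R.H.obj M) (b : R.H.obj N ⟶ R.H.obj N) :
    tens R (a + a') b = tens R a b + tens R a' b := by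
  unfold tens
  rw [MonoidalPreadditive.add_tensor, Preadditive.add_comp, Preadditive.comp_add]

lemma tens_add_right {M N : C} (a : R.H.obj M ⟶ R.H.obj M) (b b' : R.H.obj N ⟶ R.H.obj N) :
    tens R a (b + b') = tens R a b + tens R a b' := by
  unfold tens
  rw [MonoidalPreadditive.tensor_add, Preadditive.add_comp, Preadditive.comp_add]

lemma tens_zero_left {M N : C} (b : R.H.obj N ⟶ R.H.obj N) :
    tens R (0 : R.H.obj M ⟶ R.H.obj M) b = 0 := by
  unfold tens
  rw [MonoidalPreadditive.zero_tensor, zero_comp, comp_zero]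

lemma tens_zero_right {M N : C} (a : R.H.obj M ⟶ R.H.obj M) :
    tens R a (0 : R.H.obj N ⟶ R.H.obj N) = 0 := by
  unfold tens
  rw [MonoidalPreadditive.tensor_zero, zero_comp, comp_zero]

lemma tens_sum_left {M N : C} {ι : Type*} (s : Finset ι) (a : ι → (R.H.obj M ⟶ R.H.obj M))
    (b : R.H.obj N ⟶ R.H.obj N) : tens R (∑ i ∈ s, a i) b = ∑ i ∈ s, tens R (a i) b := by
  classical
  induction s using Finset.induction_on with
  | empty => rw [sum_empty, sum_empty, tens_zero_left]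
  | insert i s hi ih => rw [sum_insert hi, sum_insert hi, tens_add_left, ih]

lemma tens_sum_right {M N : C} {ι : Type*} (s : Finset ι) (a : R.H.obj M ⟶ R.H.obj M)
    (b : ι → (R.H.obj N ⟶ R.H.obj N)) : tens R a (∑ i ∈ s, b i) = ∑ i ∈ s, tens R a (b i) := by
  classical
  induction s using Finset.induction_on with
  | empty => rw [sum_empty, sum_empty, tens_zero_right]
  | insert i s hi ih => rw [sum_insert hi, sum_insert hi, tens_add_right, ih]

lemma tens_mem {M N : C} {a : R.H.obj M ⟶ R.H.obj M} {b : R.H.obj N ⟶ R.H.obj N}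
    (ha : a ∈ alg R M) (hb : b ∈ alg R N) : tens R a b ∈ alg R (M ⊗ N) := by
  refine Submodule.span_induction (p := fun a _ => tens R a b ∈ alg R (M ⊗ N)) ?_ ?_ ?_ ?_ ha
  · rintro _ ⟨f, rfl⟩
    refine Submodule.span_induction (p := fun b _ => tens R (R.H.map f) b ∈ alg R (M ⊗ N))
      ?_ ?_ ?_ ?_ hb
    · rintro _ ⟨g, rfl⟩
      rw [← tens_map]
      exact map_mem _
    · rw [tens_zero_right]
      exact Submodule.zero_mem _
    · intro x y _ _ hx hy
      rw [tens_add_right]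
      exact Submodule.add_mem _ hx hy
    · intro c x _ hx
      rw [tens_smul_right]
      exact Submodule.smul_mem _ _ hx
  · rw [tens_zero_left]
    exact Submodule.zero_mem _
  · intro x y _ _ hx hy
    rw [tens_add_left]
    exact Submodule.add_mem _ hx hy
  · intro c x _ hx
    rw [tens_smul_left]
    exact Submodule.smul_mem _ _ hx

/-- The Künneth conjecture passes to tensor products and their direct summands. -/
theorem ascent {M N : C} (hM : Kun 𝒢 (𝟙 M)) (hN : Kun 𝒢 (𝟙 N)) (e : M ⊗ N ⟶ M ⊗ N) :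
    Kun 𝒢 e := by
  intro k
  refine comp_mem ?_ (map_mem e)
  obtain ⟨dM, hdM, -⟩ := 𝒢.gr_sum M
  obtain ⟨dN, hdN, -⟩ := 𝒢.gr_sum N
  rw [gr_tens 𝒢 hdM hdN]
  refine Submodule.sum_mem _ (fun i _ => Submodule.sum_mem _ (fun j _ => ?_))
  split_ifs
  · refine tens_mem ?_ ?_
    · have := hM ((i : ℤ) - dM)
      rwa [R.H.map_id, Category.comp_id] at this
    · have := hN ((j : ℤ) - dN)
      rwa [R.H.map_id, Category.comp_id] at this
  · exact Submodule.zero_mem _

/-- The sum of the `ρ g ⊗ σ g` kills the part of the group ring which is not seen. -/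
lemma kill_left {M N : C} (ρ : G →* End M) (σ : G →* End N) {y : MonoidAlgebra K G}
    (hy : dualAct R σ y = 0) : tens R (act R ρ y) (𝟙 _) ≫
      (∑ g, tens R (R.H.map (ρ g : M ⟶ M)) (R.H.map (σ g : N ⟶ N))) = 0 := by
  unfold act
  rw [tens_sum_left, Preadditive.sum_comp]
  have h1 : ∀ h : G, tens R (y.coeff h • R.H.map (ρ h : M ⟶ M)) (𝟙 (R.H.obj N)) ≫
      (∑ g, tens R (R.H.map (ρ g : M ⟶ M)) (R.H.map (σ g : N ⟶ N))) =
      ∑ g, tens R (R.H.map (ρ g : M ⟶ M))
        (y.coeff h • (R.H.map (σ h⁻¹ : N ⟶ N) ≫ R.H.map (σ g : N ⟶ N))) := by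
    intro h
    rw [Preadditive.comp_sum, ← Equiv.sum_comp (Equiv.mulRight h)
      (fun g => tens R (R.H.map (ρ g : M ⟶ M))
        (y.coeff h • (R.H.map (σ h⁻¹ : N ⟶ N) ≫ R.H.map (σ g : N ⟶ N))))]
    refine sum_congr rfl (fun g _ => ?_)
    rw [tens_comp, Category.id_comp, tens_smul_right, Linear.smul_comp, tens_smul_left]
    congr 1
    rw [Equiv.coe_mulRight, map_mul, map_mul]
    congr 1
    · rw [← R.H.map_comp]
      rfl
    · rw [← R.H.map_comp]
      congr 1
      change (σ g : N ⟶ N) = (σ h⁻¹ : N ⟶ N) ≫ (σ h : N ⟶ N) ≫ (σ g : N ⟶ N)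
      have h2 : (σ h⁻¹ : N ⟶ N) ≫ (σ h : N ⟶ N) = 𝟙 N := by
        change σ h * σ h⁻¹ = 1
        rw [← map_mul, mul_inv_cancel, map_one]
      rw [← Category.assoc, h2, Category.id_comp]
  rw [sum_congr rfl (fun h _ => h1 h), sum_comm]
  refine sum_eq_zero (fun g _ => ?_)
  rw [← tens_sum_right]
  have h3 : ∑ h, y.coeff h • (R.H.map (σ h⁻¹ : N ⟶ N) ≫ R.H.map (σ g : N ⟶ N)) =
      dualAct R σ y ≫ R.H.map (σ g : N ⟶ N) := by
    unfold dualAct
    rw [Preadditive.sum_comp]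
    refine sum_congr rfl (fun h _ => ?_)
    rw [Linear.smul_comp]
  rw [h3, hy, zero_comp, tens_zero_right]

lemma kill_right {M N : C} (ρ : G →* End M) (σ : G →* End N) {y : MonoidAlgebra K G}
    (hy : dualAct R ρ y = 0) : tens R (𝟙 _) (act R σ y) ≫
      (∑ g, tens R (R.H.map (ρ g : M ⟶ M)) (R.H.map (σ g : N ⟶ N))) = 0 := by
  unfold act
  rw [tens_sum_right, Preadditive.sum_comp]
  have h1 : ∀ h : G, tens R (𝟙 (R.H.obj M)) (y.coeff h • R.H.map (σ h : N ⟶ N)) ≫
      (∑ g, tens R (R.H.map (ρ g : M ⟶ M)) (R.H.map (σ g : N ⟶ N))) =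
      ∑ g, tens R (y.coeff h • (R.H.map (ρ h⁻¹ : M ⟶ M) ≫ R.H.map (ρ g : M ⟶ M)))
        (R.H.map (σ g : N ⟶ N)) := by
    intro h
    rw [Preadditive.comp_sum, ← Equiv.sum_comp (Equiv.mulRight h)
      (fun g => tens R (y.coeff h • (R.H.map (ρ h⁻¹ : M ⟶ M) ≫ R.H.map (ρ g : M ⟶ M)))
        (R.H.map (σ g : N ⟶ N)))]
    refine sum_congr rfl (fun g _ => ?_)
    rw [tens_comp, Category.id_comp, tens_smul_left, Linear.smul_comp, tens_smul_right]
    congr 1
    rw [Equiv.coe_mulRight, map_mul, map_mul]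
    congr 1
    · rw [← R.H.map_comp]
      congr 1
      change (ρ g : M ⟶ M) = (ρ h⁻¹ : M ⟶ M) ≫ (ρ h : M ⟶ M) ≫ (ρ g : M ⟶ M)
      have h2 : (ρ h⁻¹ : M ⟶ M) ≫ (ρ h : M ⟶ M) = 𝟙 M := by
        change ρ h * ρ h⁻¹ = 1
        rw [← map_mul, mul_inv_cancel, map_one]
      rw [← Category.assoc, h2, Category.id_comp]
    · rw [← R.H.map_comp]
      rfl
  rw [sum_congr rfl (fun h _ => h1 h), sum_comm]
  refine sum_eq_zero (fun g _ => ?_)
  rw [← tens_sum_left]
  have h3 : ∑ h, y.coeff h • (R.H.map (ρ h⁻¹ : M ⟶ M) ≫ R.H.map (ρ g : M ⟶ M)) =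
      dualAct R ρ y ≫ R.H.map (ρ g : M ⟶ M) := by
    unfold dualAct
    rw [Preadditive.sum_comp]
    refine sum_congr rfl (fun h _ => ?_)
    rw [Linear.smul_comp]
  rw [h3, hy, zero_comp, tens_zero_left]

/-- The unit of the seen part. -/
lemma seen_unit {N : C} (σ : G →* End N) :
    ∃ ε : MonoidAlgebra K G, Seen R σ ε ∧ dualAct R σ (1 - ε) = 0 := by
  have hK := R_charZero R
  have hfin := R.finite N
  obtain ⟨ε, h1, h2⟩ := exists_unit (rep R σ)
  exact ⟨ε, fun y hy => h2 y ((dualAct_zero_iff R σ y).1 hy), (dualAct_zero_iff R σ _).2 h1⟩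

/-- The converse of `seen_mem`. -/
theorem diag_of_seen {M N : C} (ρ : G →* End M) (σ : G →* End N)
    (hM : ∀ x, Seen R σ x → ∀ k, 𝒢.gr M k ≫ act R ρ x ∈ alg R M)
    (hN : ∀ x, Seen R ρ x → ∀ k, 𝒢.gr N k ≫ act R σ x ∈ alg R N) : Kun 𝒢 (diag ρ σ) := by
  rw [kun_diag]
  intro k
  obtain ⟨ε, hε, hε'⟩ := seen_unit (R := R) σ
  obtain ⟨η, hη, hη'⟩ := seen_unit (R := R) ρ
  have hE : R.H.map (∑ g, ((ρ g : M ⟶ M) ⊗ₘ (σ g : N ⟶ N))) =
      ∑ g, tens R (R.H.map (ρ g : M ⟶ M)) (R.H.map (σ g : N ⟶ N)) := by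
    rw [R.H.map_sum]
    exact sum_congr rfl (fun g _ => tens_map _ _)
  rw [hE]
  set E := ∑ g, tens R (R.H.map (ρ g : M ⟶ M)) (R.H.map (σ g : N ⟶ N)) with hEdef
  have h1 : tens R (act R ρ ε) (𝟙 _) ≫ E = E := by
    have h2 := kill_left (R := R) ρ σ hε'
    rw [act_sub, act_one, tens_sub_left, tens_id, Preadditive.sub_comp, Category.id_comp,
      sub_eq_zero] at h2
    exact h2.symm
  have h2 : tens R (𝟙 _) (act R σ η) ≫ E = E := by
    have h3 := kill_right (R := R) ρ σ hη'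
    have h4 : act R σ (1 : MonoidAlgebra K G) = act R σ (1 - η) + act R σ η := by
      rw [act_sub, sub_add_cancel]
    have h5 : E = tens R (𝟙 _) (act R σ (1 : MonoidAlgebra K G)) ≫ E := by
      rw [act_one, tens_id, Category.id_comp]
    rw [h4, tens_add_right, Preadditive.add_comp, h3, zero_add] at h5
    exact h5.symm
  obtain ⟨dM, hdM, -⟩ := 𝒢.gr_sum M
  obtain ⟨dN, hdN, -⟩ := 𝒢.gr_sum N
  have h3 : 𝒢.gr (M ⊗ N) k ≫ E = (∑ i ∈ range (2 * dM + 1), ∑ j ∈ range (2 * dN + 1),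
      if ((i : ℤ) - dM) + ((j : ℤ) - dN) = k then
        tens R (sg 𝒢 M dM i ≫ act R ρ ε) (sg 𝒢 N dN j ≫ act R σ η) else 0) ≫ E := by
    conv_lhs => rw [← h1, ← h2]
    rw [gr_tens 𝒢 hdM hdN, Preadditive.sum_comp, Preadditive.sum_comp]
    refine sum_congr rfl (fun i _ => ?_)
    rw [Preadditive.sum_comp, Preadditive.sum_comp]
    refine sum_congr rfl (fun j _ => ?_)
    split_ifs
    · rw [← Category.assoc (tens R (act R ρ ε) (𝟙 _)), tens_comp, Category.comp_id,
        Category.id_comp, ← Category.assoc, tens_comp]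
    · rw [zero_comp, zero_comp]
  rw [h3]
  refine comp_mem (Submodule.sum_mem _ (fun i _ => Submodule.sum_mem _ (fun j _ => ?_))) ?_
  · split_ifs
    · exact tens_mem (hM ε hε _) (hN η hη _)
    · exact Submodule.zero_mem _
  rw [← hE]
  exact map_mem _

/-- Descent to a factor. -/
theorem kun_left {M N : C} (ρ : G →* End M) (σ : G →* End N) (hT : TypesIn R ρ σ)
    (h : Kun 𝒢 (diag ρ σ)) : Kun 𝒢 (𝟙 M) := by
  intro k
  obtain ⟨ε, hε, hε'⟩ := seen_unit (R := R) σ
  have h1 := seen_mem 𝒢 ρ σ h hε k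
  have h2 := hT _ hε'
  rw [act_sub, act_one, sub_eq_zero] at h2
  rw [R.H.map_id]
  rwa [← h2] at h1

/-- Fixed point free actions contain all types. -/
theorem free_types {N : C} (σ : G →* End N) (hF : FreeType R σ) {y : MonoidAlgebra K G}
    (hy : dualAct R σ y = 0) : y = 0 := by
  obtain ⟨h1, h2⟩ := hF
  refine ext_coeff (fun h => ?_)
  have h3 : LinearMap.trace K _ (R.H.map (σ h : N ⟶ N) ≫ dualAct R σ y ≫ R.par N).hom = 0 := by
    rw [hy, zero_comp, comp_zero]
    exact map_zero _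
  have h4 : R.H.map (σ h : N ⟶ N) ≫ dualAct R σ y ≫ R.par N =
      ∑ g, y.coeff g • (R.H.map (σ (g⁻¹ * h) : N ⟶ N) ≫ R.par N) := by
    unfold dualAct
    rw [Preadditive.sum_comp, Preadditive.comp_sum]
    refine sum_congr rfl (fun g _ => ?_)
    rw [Linear.smul_comp, Linear.comp_smul, map_mul, ← Category.assoc, ← R.H.map_comp]
    rfl
  rw [h4, ModuleCat.hom_sum, map_sum, sum_eq_single h] at h3
  · rw [inv_mul_cancel, map_one] at h3
    have h5 : R.H.map (1 : End N) ≫ R.par N = R.par N := by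
      change R.H.map (𝟙 N) ≫ R.par N = R.par N
      rw [R.H.map_id, Category.id_comp]
    rw [h5, ModuleCat.hom_smul, map_smul, smul_eq_mul] at h3
    rcases mul_eq_zero.1 h3 with h6 | h6
    · rw [h6]
      rfl
    · exact absurd h6 h2
  · intro g _ hg
    rw [ModuleCat.hom_smul, map_smul, h1 (g⁻¹ * h) (by
      intro h6
      exact hg (inv_mul_eq_one.1 h6)), smul_zero]
  · intro h6
    exact absurd (mem_univ _) h6

end

end Pool.Agent.V8H87.DQ
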