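import Mathlib

/-!
# Linear algebra: families of endomorphisms depending polynomially on a parameter
-/

set_option autoImplicit false

open Module Polynomial

namespace Pool.Agent.V8H87.DQ

variable {K : Type*} [Field K]

section

variable {V : Type*} [AddCommGroup V] [Module K V] [Module.Finite K V]

/-- An injective element of a space of endomorphisms closed under products has a left inverse in it. -/
lemma exists_left_inv (A : Submodule K (Module.End K V)) (h1 : (1 : Module.End K V) ∈ A)
    (hmul : ∀ x ∈ A, ∀ y ∈ A, x * y ∈ A) {z : Module.End K V} (hz : z ∈ A)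
    (hinj : Function.Injective z) : ∃ z' ∈ A, z' * z = 1 := by
  have hu : IsUnit z := by
    rw [Module.End.isUnit_iff]
    exact ⟨hinj, LinearMap.surjective_of_injective hinj⟩
  let L : A →ₗ[K] A :=
    { toFun := fun x => ⟨x.1 * z, hmul _ x.2 _ hz⟩
      map_add' := fun x y => by
        ext1
        exact add_mul _ _ _
      map_smul' := fun c x => by
        ext1
        exact smul_mul_assoc _ _ _ }
  have hL : Function.Injective L := by
    intro x y hxy
    have h2 : x.1 * z = y.1 * z := congrArg Subtype.val hxy
    exact Subtype.ext (hu.mul_right_cancel h2)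
  obtain ⟨x, hx⟩ := (LinearMap.surjective_of_injective hL) ⟨1, h1⟩
  exact ⟨x.1, x.2, congrArg Subtype.val hx⟩

/-- A polynomial family which is injective at one point is injective at almost all points. -/
lemma finite_bad (z : ℕ → Module.End K V) (d : ℕ) (s0 : K)
    (h0 : Function.Injective (∑ j ∈ Finset.range (d + 1), s0 ^ j • z j : Module.End K V)) :
    ∃ F : Finset K, ∀ s, s ∉ F →
      Function.Injective (∑ j ∈ Finset.range (d + 1), s ^ j • z j : Module.End K V) := by
  classical
  let b := Module.finBasis K V
  let P : Matrix (Fin (finrank K V)) (Fin (finrank K V)) K[X] :=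
    ∑ j ∈ Finset.range (d + 1), (X ^ j : K[X]) • (LinearMap.toMatrix b b (z j)).map C
  have hP : ∀ s : K, (P.map (eval s)) =
      LinearMap.toMatrix b b (∑ j ∈ Finset.range (d + 1), s ^ j • z j : Module.End K V) := by
    intro s
    ext i k
    simp only [P, Matrix.map_apply, Matrix.sum_apply, Matrix.smul_apply, smul_eq_mul,
      eval_finsetSum, eval_mul, eval_pow, eval_X, eval_C, map_sum, map_smul]
  have hdet : ∀ s : K, eval s P.det = LinearMap.det
      (∑ j ∈ Finset.range (d + 1), s ^ j • z j : Module.End K V) := by
    intro s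
    rw [← LinearMap.det_toMatrix b, ← hP s]
    exact RingHom.map_det (evalRingHom s) P
  have hne : P.det ≠ 0 := by
    intro h
    have h2 := hdet s0
    rw [h, eval_zero] at h2
    have h3 : IsUnit (∑ j ∈ Finset.range (d + 1), s0 ^ j • z j : Module.End K V) := by
      rw [Module.End.isUnit_iff]
      exact ⟨h0, LinearMap.surjective_of_injective h0⟩
    have h4 := (LinearMap.isUnit_iff_isUnit_det _).1 h3
    rw [← h2] at h4
    exact not_isUnit_zero h4
  refine ⟨P.det.roots.toFinset, fun s hs => ?_⟩
  have h1 : eval s P.det ≠ 0 := by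
    intro h
    apply hs
    rw [Multiset.mem_toFinset, mem_roots hne]
    exact h
  rw [hdet] at h1
  have h2 : IsUnit (∑ j ∈ Finset.range (d + 1), s ^ j • z j : Module.End K V) := by
    rw [LinearMap.isUnit_iff_isUnit_det]
    exact isUnit_iff_ne_zero.2 h1
  exact ((Module.End.isUnit_iff _).1 h2).injective

end

/-- The coefficients of a polynomial family whose values at almost all points lie in a subspace. -/
lemma coeff_mem [CharZero K] {E : Type*} [AddCommGroup E] [Module K E] (A : Submodule K E)
    (p : ℕ → E) (d : ℕ) (F : Finset K)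
    (h : ∀ s, s ∉ F → ∑ i ∈ Finset.range (d + 1), (-s) ^ i • p i ∈ A) (i : ℕ) (hi : i ≤ d) :
    p i ∈ A := by
  classical
  rw [← Submodule.Quotient.mk_eq_zero A, ← Module.forall_dual_apply_eq_zero_iff K]
  intro f
  let Q : K[X] := ∑ i ∈ Finset.range (d + 1), C (f (Submodule.Quotient.mk (p i))) * X ^ i
  have hQ : Q = 0 := by
    by_contra hne
    have hinf : (↑(F ∪ Q.roots.toFinset.image (fun x => -x)) : Set K) ≠ Set.univ := by
      intro huniv
      exact Set.infinite_univ (α := K) (by rw [← huniv]; exact Finset.finite_toSet _)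
    obtain ⟨s, hs⟩ := (Set.ne_univ_iff_exists_notMem _).1 hinf
    rw [Finset.mem_coe, Finset.mem_union, not_or] at hs
    have h1 := h s hs.1
    rw [← Submodule.Quotient.mk_eq_zero A] at h1
    have h2 : eval (-s) Q = f (Submodule.Quotient.mk (∑ i ∈ Finset.range (d + 1),
        (-s) ^ i • p i)) := by
      simp only [Q, eval_finsetSum, eval_mul, eval_C, eval_pow, eval_X]
      rw [← Submodule.mkQ_apply, map_sum, map_sum]
      refine Finset.sum_congr rfl (fun i _ => ?_)
      rw [map_smul, map_smul, smul_eq_mul, Submodule.mkQ_apply, mul_comm]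
    rw [h1, map_zero] at h2
    apply hs.2
    rw [Finset.mem_image]
    exact ⟨-s, by rw [Multiset.mem_toFinset, mem_roots hne]; exact h2, neg_neg s⟩
  have h3 := congrArg (fun q => q.coeff i) hQ
  simp only [Q, finsetSum_coeff, coeff_C_mul, coeff_X_pow, coeff_zero] at h3
  rw [Finset.sum_eq_single i] at h3
  · simpa using h3
  · intro j _ hj
    rw [if_neg (Ne.symm hj), mul_zero]
  · intro hni
    exact absurd (Finset.mem_range.2 (Nat.lt_succ_of_le hi)) hni

end Pool.Agent.V8H87.DQ
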